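import Pool.Agent.N591.VP.GTHIN
import Pool.Agent.N805.VP.Stm3

/-! # Thinning of the Fredholm determinant, upper bound (helper680, after helper591) -/

set_option autoImplicit false

open MeasureTheory Set Filter Topology

namespace Pool.Agent.N680.VP

open Pool.Agent.N805.VP Pool.Agent.N591.VP

theorem GTHIN2 : Pool.Agent.N805.VP.S_GTHIN2 := by
  intro hD h hh A z h0 h1
  have hE : ∀ S : Finset ℤ, HasSum (fun k : ℕ => (-(1 : ℝ)) ^ k / (k.factorial : ℝ) *
      G (fun _ : Fin k => U h S)) (E (U h S)) := fun S =>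
    (Phi_summable hD (z := 1) (U_meas h S) (U_bdd h hh S)).hasSum
  have hS : HasSum (fun k : ℕ => ∑ S ∈ A.powerset, wt A z S * ((-(1 : ℝ)) ^ k /
      (k.factorial : ℝ) * G (fun _ : Fin k => U h S))) (∑ S ∈ A.powerset, wt A z S * E (U h S)) :=
    hasSum_sum fun S _ => (hE S).mul_left _
  have hP : HasSum (fun k : ℕ => (-z) ^ k / (k.factorial : ℝ) * G (fun _ : Fin k => U h A))
      (Phi z (U h A)) := (Phi_summable hD (U_meas h A) (U_bdd h hh A)).hasSum
  have hR := hS.add (err_sum h (A.card : ℝ))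
  have key := hasSum_le (fun k => ?_) hP hR
  · have e : ∑ S ∈ A.powerset, z ^ S.card * (1 - z) ^ (A.card - S.card) * (1 - E (U h S)) =
        1 - ∑ S ∈ A.powerset, wt A z S * E (U h S) := by
      have e0 : ∑ S ∈ A.powerset, z ^ S.card * (1 - z) ^ (A.card - S.card) * (1 - E (U h S)) =
          ∑ S ∈ A.powerset, wt A z S - ∑ S ∈ A.powerset, wt A z S * E (U h S) := by
        rw [← Finset.sum_sub_distrib]
        refine Finset.sum_congr rfl fun S _ => ?_
        unfold wt
        ring
      rw [e0, wt_sum]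
    rw [e]
    linarith
  · have ht := term_le hD hh A h0 h1 k
    have hk : (0 : ℝ) < (k.factorial : ℝ) := by positivity
    have e1 : ∑ S ∈ A.powerset, wt A z S * ((-(1 : ℝ)) ^ k / (k.factorial : ℝ) *
        G (fun _ : Fin k => U h S)) - (-z) ^ k / (k.factorial : ℝ) * G (fun _ : Fin k => U h A) =
        (-(1 : ℝ)) ^ k * ((∑ S ∈ A.powerset, wt A z S * G (fun _ : Fin k => U h S) -
          z ^ k * G (fun _ : Fin k => U h A)) / (k.factorial : ℝ)) := by
      rw [sub_div, mul_sub, Finset.sum_div, Finset.mul_sum, neg_pow z k]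
      congr 1
      · refine Finset.sum_congr rfl fun S _ => ?_
        ring
      · ring
    have e2 : -((-(1 : ℝ)) ^ k * ((∑ S ∈ A.powerset, wt A z S * G (fun _ : Fin k => U h S) -
          z ^ k * G (fun _ : Fin k => U h A)) / (k.factorial : ℝ))) ≤
        ((k : ℝ) * (k - 1) * (A.card : ℝ) ^ (k - 1) * h ^ k) / (k.factorial : ℝ) := by
      refine (neg_le_abs _).trans ?_
      rw [abs_mul, abs_pow, abs_neg, abs_one, one_pow, one_mul, abs_div,
        abs_of_pos hk]
      exact div_le_div_of_nonneg_right ht hk.le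
    rw [← e1] at e2
    linarith

end Pool.Agent.N680.VP
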